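import Mathlib
import Pool.Agent.H737R4.Fin

set_option autoImplicit false

namespace Pool.Agent.Results.MP_fcbc4b_ag.PointsResurgence

open MvPolynomial

/-- **Symbolic powers of ideals of finite sets of points in characteristic zero.** Let `K` be a
field of characteristic zero, `N ≥ 2`, and let `I` be a homogeneous radical ideal of
`K[x_0, …, x_N]` all of whose minimal primes have height `N` (the ideal of a reduced
zero-dimensional subscheme of projective `N`-space; its big height is `N`). Write `I^(a)` for the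
symbolic power, the set of `r` such that for every minimal prime `P` of `I` there is `t ∉ P` with
`t r ∈ I^a`. Then

* there is a real number `ρ < N` such that `I^(a) ⊆ I^b` whenever `ρ b ≤ a`;
* for every `C` there is `n₀` such that `I^(N n - C) ⊆ I^n` for all `n ≥ n₀`;
* there is `n₀` such that `I^(N n - N + 1) ⊆ I^n` for all `n ≥ n₀`. -/
theorem result (K : Type*) [Field K] [CharZero K] (N : ℕ) (hN : 2 ≤ N)
    (I : Ideal (MvPolynomial (Fin (N + 1)) K)) (hrad : I.IsRadical)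
    (hhom : ∀ f ∈ I, ∀ d : ℕ, homogeneousComponent d f ∈ I)
    (hmin : ∀ P ∈ I.minimalPrimes, P.height = (N : ℕ∞)) :
    (∃ ρ : ℝ, ρ < N ∧ ∀ a b : ℕ, ρ * b ≤ a → ∀ r : MvPolynomial (Fin (N + 1)) K,
      (∀ P ∈ I.minimalPrimes, ∃ t, t ∉ P ∧ t * r ∈ I ^ a) → r ∈ I ^ b) ∧
    (∀ C : ℕ, ∃ n₀ : ℕ, ∀ n : ℕ, n₀ ≤ n → ∀ r : MvPolynomial (Fin (N + 1)) K,
      (∀ P ∈ I.minimalPrimes, ∃ t, t ∉ P ∧ t * r ∈ I ^ (N * n - C)) → r ∈ I ^ n) ∧
    (∃ n₀ : ℕ, ∀ n : ℕ, n₀ ≤ n → ∀ r : MvPolynomial (Fin (N + 1)) K,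
      (∀ P ∈ I.minimalPrimes, ∃ t, t ∉ P ∧ t * r ∈ I ^ (N * n - N + 1)) → r ∈ I ^ n) := by
  obtain ⟨ρ, hρ, h⟩ := Pool.Agent.H737R4.resGen hN I hrad hhom hmin
  have h2 : ∀ C : ℕ, ∃ n₀ : ℕ, ∀ n : ℕ, n₀ ≤ n → ∀ r : MvPolynomial (Fin (N + 1)) K,
      (∀ P ∈ I.minimalPrimes, ∃ t, t ∉ P ∧ t * r ∈ I ^ (N * n - C)) → r ∈ I ^ n := by
    intro C
    obtain ⟨n₀, hn₀⟩ := Pool.Agent.H737R4.stable_of_res C hρ
    exact ⟨n₀, fun n hn r hr => h _ n (hn₀ n hn) r hr⟩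
  refine ⟨⟨ρ, hρ, h⟩, h2, ?_⟩
  obtain ⟨n₀, hn₀⟩ := h2 N
  refine ⟨n₀, fun n hn r hr => hn₀ n hn r fun P hP => ?_⟩
  obtain ⟨t, ht, htr⟩ := hr P hP
  exact ⟨t, ht, Ideal.pow_le_pow_right (by omega) htr⟩

end Pool.Agent.Results.MP_fcbc4b_ag.PointsResurgence
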